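import Pool.Agent.helper35.DR.SpecR

set_option autoImplicit false

namespace Pool.Agent.DR

open Pool.Agent.helper58.DC Pool.Agent.DI

theorem RTP (hA2 : A2_stmt) (hA4 : A4_stmt) (hA7 : A7_stmt) (hA8 : A8_stmt) (hA14 : A14_stmt)
    (hRCT : RCT_stmt) (hRBL : RBL_stmt) : RTP_stmt := by
  intro Γ _ _ p _ M hM hpM G₁ G₂ _ hInv τ D hD
  have hnz : nz G₂ = ⊤ := Subgroup.normalizer_eq_top G₂
  obtain ⟨P, hP⟩ := (hA2 Γ p G₂).1
  obtain ⟨hPle, hPp, hPnz, hPnz2, -⟩ := (hA2 Γ p G₂).2 P hP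
  rw [hnz] at hPnz2
  by_cases hbot : P = ⊥
  · subst hbot
    have h7 := hA7 Γ p G₂ ⊥ ⊤ (hf p M G₁ G₂ τ D) hP (by rw [hnz]; exact le_top)
    rw [← h7]
    have h8 := hA8 G₂ Γ p G₂.subtype G₂.subtype_injective ⊤ (hf p M G₁ G₂ τ D)
    rw [Subgroup.range_subtype] at h8
    rw [← h8]
    have hop : IsOp p (⊤ : Subgroup G₂) ⊥ := by
      rw [(hA14 G₂ Γ p G₂.subtype G₂.subtype_injective).2.1, Subgroup.range_subtype]
      exact hP
    have hR := hRBL G₂ Γ (Γ ⧸ G₂) Γ (XQ G₂) G₂.subtype G₂.subtype_injective p M hM hpM hop hInv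
      G₁ τ D hD
    rw [← hR]
    apply finsum_mem_congr rfl
    intro C hC
    have hC' : IsRadical p C := hC
    obtain ⟨P₀, hP₀, -⟩ := hC'.radical
    rw [top_inf_eq, hRCT Γ p M G₁ G₂ τ D C hC'.chain ⟨P₀, hP₀⟩]
  · refine hA4 Γ p G₂ ⊥ ⊤ P _ hPp hPle hPnz (le_trans le_top hPnz2) ?_
    intro h
    exact hbot (le_bot_iff.1 h)

end Pool.Agent.DR
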